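import Pool.Agent.MP_856573_co.H74.Bas

/-! The insides of the triangles of a triangulation form a laminar family. -/

namespace Pool.Agent.MP_856573_co.H74

open Pool.Agent.MP_31805c_co.H93 (Conn)

namespace LamAux

variable {V : Type} [DecidableEq V] {G : SimpleGraph V} {D T0 T T' : Finset V}
  {F : Finset (Finset V)} {u v w x y z z' : V}

theorem mem_inn : v ∈ Inn G D T0 T ↔
    v ∈ D ∧ v ∉ T ∧ ∀ ρ ∈ T0, ρ ∉ T → ¬ Conn G ((D : Set V) \ T) v ρ := by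
  simp [Inn]

theorem inn_conn (h : v ∈ Inn G D T0 T) (c : Conn G ((D : Set V) \ T) v w) : w ∈ Inn G D T0 T :=
  have a := mem_inn.1 h
  have b := c.mem ⟨a.1, a.2.1⟩
  mem_inn.2 ⟨b.1, b.2, fun ρ h1 h2 d => a.2.2 ρ h1 h2 (c.trans d)⟩

theorem inn_adj (h : v ∈ Inn G D T0 T) (e : G.Adj v w) (hw : w ∈ D) (hT : w ∉ T) :
    w ∈ Inn G D T0 T :=
  inn_conn h (Conn.adj e ⟨(mem_inn.1 h).1, (mem_inn.1 h).2.1⟩ ⟨hw, hT⟩)

theorem root_not (h : v ∈ T0) : v ∉ Inn G D T0 T := fun a =>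
  (mem_inn.1 a).2.2 v h (mem_inn.1 a).2.1 (Conn.refl _ _)

theorem t3_conn (h : T3 G D T) {W : Set V} (hu : u ∈ T) (hv : v ∈ T) (a : u ∈ W) (b : v ∈ W) :
    Conn G W u v := by
  by_cases e : u = v
  · exact e ▸ Conn.refl _ _
  · exact Conn.adj (h.2.1 hu hv e) a b

theorem reach (hv : v ∈ D) (a : v ∉ T) (b : v ∉ Inn G D T0 T) :
    ∃ ρ ∈ T0, Conn G (((D : Set V) \ T) \ Inn G D T0 T) v ρ := by
  rw [mem_inn] at b
  push Not at b
  obtain ⟨ρ, h1, h2, h3⟩ := b hv a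
  have n : ∀ x, Conn G ((D : Set V) \ T) x ρ → x ∉ Inn G D T0 T := fun x c d =>
    (mem_inn.1 d).2.2 ρ h1 h2 c
  exact ⟨ρ, h1, conn_ind (Conn G _ v) h3 (Conn.refl _ _) fun x hx y hy c e d =>
    d.trans (Conn.adj e ⟨hx, n x (c.symm.trans h3)⟩
      ⟨hy, n y ((Conn.adj e.symm hy hx).trans (c.symm.trans h3))⟩)⟩

theorem third (h : T.card = 3) (hu : u ∈ T) (hv : v ∈ T) (e : u ≠ v) :
    ∃ w, T = {u, v, w} ∧ w ≠ u ∧ w ≠ v := by
  have s : ({u, v} : Finset V) ⊆ T := by simp [Finset.insert_subset_iff, hu, hv]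
  obtain ⟨w, hw⟩ := Finset.card_eq_one.1 (show (T \ {u, v}).card = 1 by
    rw [Finset.card_sdiff_of_subset s, h, Finset.card_pair e])
  have a : w ∈ T \ {u, v} := hw ▸ Finset.mem_singleton_self w
  refine ⟨w, ?_, by simpa using (Finset.mem_sdiff.1 a).2⟩
  rw [← Finset.union_sdiff_of_subset s, hw]
  ext
  simp

variable [Fintype V]

theorem nb3 (tb : StmtTB) (t : Tri G D F) (h : T.card = 3) (hx : x ∈ T) (hD : x ∈ D) :
    ∃ y ∈ D, y ∉ T ∧ G.Adj x y := by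
  obtain ⟨a, ha, b, hb, c, hc, ab, ac, bc, e1, e2, e3⟩ := (tb.deg V G D F t x hD).2
  by_contra n
  push Not at n
  have s : ({a, b, c} : Finset V) ⊆ T.erase x := by
    simp only [Finset.insert_subset_iff, Finset.singleton_subset_iff, Finset.mem_erase]
    exact ⟨⟨e1.ne', by_contra fun d => n a ha d e1⟩, ⟨e2.ne', by_contra fun d => n b hb d e2⟩,
      e3.ne', by_contra fun d => n c hc d e3⟩
  have := Finset.card_le_card s
  rw [Finset.card_erase_of_mem hx, h, Finset.card_eq_three.2 ⟨a, b, c, ab, ac, bc, rfl⟩] at this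
  omega

theorem face_conn (tb : StmtTB) (sp : StmtSPLIT) (t : Tri G D F) (h : T ∈ F) (hx : x ∈ D)
    (x1 : x ∉ T) (hy : y ∈ D) (y1 : y ∉ T) : Conn G ((D : Set V) \ T) x y := by
  obtain ⟨f, hf, ne⟩ := Finset.exists_mem_ne (s := F.filter fun f => x ∈ f)
    (lt_of_lt_of_le (by omega) (tb.deg V G D F t x hx).1) T
  have hf := (Finset.mem_filter.1 hf).1
  have e := (sp.face V G D F f T t hf (t.face T h) ne.symm).1 h
  obtain ⟨ρ, a, b⟩ := reach (G := G) (T0 := f) hx x1 (by simp [e])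
  obtain ⟨ρ', a', b'⟩ := reach (G := G) (T0 := f) hy y1 (by simp [e])
  have c := b.mono Set.sdiff_subset
  have c' := b'.mono Set.sdiff_subset
  exact (c.trans (t3_conn (t.face f hf) a a' (c.mem ⟨hx, x1⟩) (c'.mem ⟨hy, y1⟩))).trans c'.symm

section
variable (tb : StmtTB) (sp : StmtSPLIT) (t : Tri G D F) (r : T0 ∈ F) (h : T3 G D T)
include tb sp t r h

theorem nb_out (ne : T ≠ T0) (hx : x ∈ T) :
    ∃ y ∈ D, y ∉ T ∧ y ∉ Inn G D T0 T ∧ G.Adj x y := by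
  by_cases e : T ∈ F
  · obtain ⟨y, a, b, c⟩ := nb3 tb t h.2.2 hx (h.1 hx)
    exact ⟨y, a, b, by simp [(sp.face V G D F T0 T t r h ne).1 e], c⟩
  · obtain ⟨y, a, b, c⟩ := nb3 tb (sp.out V G D F T0 T t r h e) h.2.2 hx
      (Finset.mem_sdiff.2 ⟨h.1 hx, fun d => (mem_inn.1 d).2.1 hx⟩)
    exact ⟨y, (Finset.mem_sdiff.1 a).1, b, (Finset.mem_sdiff.1 a).2, c⟩

theorem inside (hv : v ∈ Inn G D T0 T) : (∀ x ∈ T, ∃ y ∈ Inn G D T0 T, G.Adj x y) ∧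
    ∀ y ∈ Inn G D T0 T, Conn G (Inn G D T0 T) v y := by
  obtain ⟨D', F', t', a, b, c⟩ : ∃ D' F', Tri G D' F' ∧ T ∈ F' ∧ T ⊆ D' ∧
      (D' : Set V) \ T = Inn G D T0 T := by
    by_cases e : T ∈ F
    · obtain rfl : T = T0 := by_contra fun ne => by
        simp [(sp.face V G D F T0 T t r h ne).1 e] at hv
      exact ⟨D, F, t, r, h.1, Set.ext fun x => ⟨fun a => mem_inn.2 ⟨a.1, a.2, fun ρ b c =>
        (c b).elim⟩, fun a => ⟨(mem_inn.1 a).1, (mem_inn.1 a).2.1⟩⟩⟩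
    · exact ⟨_, _, sp.inn V G D F T0 T t r h e, Finset.mem_insert_self _ _,
        Finset.subset_union_left, Set.ext fun x => ⟨fun a => (Finset.mem_union.1 a.1).resolve_left
          a.2, fun a => ⟨Finset.mem_union_right _ a, (mem_inn.1 a).2.1⟩⟩⟩
  refine ⟨fun x hx => ?_, fun y hy => c ▸ face_conn tb sp t' a (c.ge hv).1 (c.ge hv).2
    (c.ge hy).1 (c.ge hy).2⟩
  obtain ⟨y, d, e, f⟩ := nb3 tb t' h.2.2 hx (b hx)
  exact ⟨y, c.le ⟨d, e⟩, f⟩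

theorem sub (h' : T3 G D T') (l : Lt (Inn G D T0) T T') :
    T ⊆ T' ∪ Inn G D T0 T' ∧ Inn G D T0 T ⊆ Inn G D T0 T' := by
  obtain ⟨v, hv, a⟩ := l
  have s : ∀ w ∈ T, w ∉ T' → w ∈ Inn G D T0 T' := fun w hw b =>
    inn_conn a (t3_conn h hv hw ⟨h.1 hv, (mem_inn.1 a).2.1⟩ ⟨h.1 hw, b⟩)
  have k : ∀ x ∈ Inn G D T0 T, x ∉ T' → x ∈ Inn G D T0 T' := fun x hx b => by_contra fun c => by
    obtain ⟨ρ, d, e⟩ := reach (mem_inn.1 hx).1 b c
    exact root_not d (inn_conn hx (e.mono fun y hy => And.intro hy.1.1 fun f => hy.2 (s y f hy.1.2)))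
  refine ⟨fun w hw => Finset.mem_union.2 (or_iff_not_imp_left.2 (s w hw)), fun x hx =>
    k x hx fun b => ?_⟩
  obtain ⟨y, y1, y2, y3, y4⟩ := nb_out tb sp t r h' (fun e => root_not (e ▸ b) hx) b
  exact y3 (k y (inn_adj hx y4 y1 fun c => y3 (s y c y2)) y2)

theorem lam (h' : T3 G D T') (ne : T ≠ T') : Disjoint (Inn G D T0 T) (Inn G D T0 T') ∨
    Lt (Inn G D T0) T T' ∨ Lt (Inn G D T0) T' T := by
  by_contra n
  simp only [not_or, Finset.not_disjoint_iff] at n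
  obtain ⟨⟨x, a, b⟩, n1, n2⟩ := n
  obtain ⟨c, c1, c2⟩ := Finset.not_subset.1 fun s : T ⊆ T' =>
    ne (Finset.eq_of_subset_of_card_le s (by rw [h.2.2, h'.2.2]))
  obtain ⟨y, y1, y2⟩ := (inside tb sp t r h a).1 c c1
  exact n1 ⟨c, c1, inn_adj (inn_conn b (((inside tb sp t r h a).2 y y1).mono fun z hz =>
    And.intro (mem_inn.1 hz).1 fun d => n2 ⟨z, d, hz⟩)) y2.symm (h.1 c1) c2⟩

theorem apex (e : T = {u, v, w}) (wu : w ≠ u) (wv : w ≠ v) (f : {u, v, z} ∈ F)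
    (f' : {u, v, z'} ∈ F) (zu : z ≠ u) (zv : z ≠ v) (zu' : z' ≠ u) (zv' : z' ≠ v) (ne : z ≠ z')
    (all : ∀ g ∈ F, u ∈ g → v ∈ g → g = {u, v, z} ∨ g = {u, v, z'}) :
    (z ∉ Inn G D T0 T ∨ z' ∉ Inn G D T0 T) ∧
      ((w = z ∨ z ∈ Inn G D T0 T) ∨ (w = z' ∨ z' ∈ Inn G D T0 T)) := by
  subst e
  by_cases hF : ({u, v, w} : Finset V) ∈ F
  · have k : ∀ y, ({u, v, w} : Finset V) = {u, v, y} → w = y := fun y e => by
      simpa [wu, wv] using e.le (show w ∈ _ by simp)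
    have a := (all _ hF (by simp) (by simp)).imp (k z) (k z')
    exact ⟨a.imp (fun e c => (mem_inn.1 c).2.1 (by simp [e]))
      fun e c => (mem_inn.1 c).2.1 (by simp [e]), a.imp Or.inl Or.inl⟩
  have s : ¬ Conn G ((D : Set V) \ ({u, v, w} : Finset V)) z z' := by
    simpa using tb.tsep V G D F t u v w z z' h hF f f' ne
  refine ⟨by_contra fun n => ?_, by_contra fun n => ?_⟩
  · push Not at n
    exact s (((inside tb sp t r h n.1).2 z' n.2).mono fun y hy =>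
      And.intro (mem_inn.1 hy).1 (mem_inn.1 hy).2.1)
  · push Not at n
    have d : z ∈ D := (t.face _ f).1 (by simp)
    have d' : z' ∈ D := (t.face _ f').1 (by simp)
    have m : z ∉ ({u, v, w} : Finset V) := by simp [zu, zv, n.1.1.symm]
    have m' : z' ∉ ({u, v, w} : Finset V) := by simp [zu', zv', n.2.1.symm]
    obtain ⟨ρ, a, b⟩ := reach d m n.1.2
    obtain ⟨ρ', a', b'⟩ := reach d' m' n.2.2
    have c := b.mono Set.sdiff_subset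
    have c' := b'.mono Set.sdiff_subset
    exact s ((c.trans (t3_conn (t.face _ r) a a' (c.mem ⟨d, m⟩) (c'.mem ⟨d', m'⟩))).trans c'.symm)

theorem edge {T1 T2 : Finset V} (h1 : T3 G D T1) (h2 : T3 G D T2) (l1 : Lt (Inn G D T0) T1 T)
    (l2 : Lt (Inn G D T0) T2 T) (c : 2 ≤ (T ∩ T1 ∩ T2).card) :
    T1 = T2 ∨ Lt (Inn G D T0) T1 T2 ∨ Lt (Inn G D T0) T2 T1 := by
  obtain ⟨u, hu, v, hv, uv⟩ := Finset.one_lt_card.1 c
  simp only [Finset.mem_inter] at hu hv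
  obtain ⟨f, f', ff, e⟩ := Finset.card_eq_two.1
    (t.two u (h.1 hu.1.1) v (h.1 hv.1.1) (h.2.1 hu.1.1 hv.1.1 uv))
  have a := Finset.mem_filter.1 (e.ge (Finset.mem_insert_self _ _))
  have a' := Finset.mem_filter.1 (e.ge (Finset.mem_insert_of_mem (Finset.mem_singleton_self _)))
  obtain ⟨z, rfl, zu, zv⟩ := third (t.face f a.1).2.2 a.2.1 a.2.2 uv
  obtain ⟨z', rfl, zu', zv'⟩ := third (t.face f' a'.1).2.2 a'.2.1 a'.2.2 uv
  have ap := fun (T w) (h : T3 G D T) (b : T = {u, v, w}) c d => apex tb sp t r h b c d a.1 a'.1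
    zu zv zu' zv' (fun b => ff (by rw [b])) fun g b c d => by
      simpa using e.le (Finset.mem_filter.2 ⟨b, c, d⟩)
  obtain ⟨w, e0, w1, w2⟩ := third h.2.2 hu.1.1 hv.1.1 uv
  have k : ∀ T', T3 G D T' → Lt (Inn G D T0) T' T → u ∈ T' → v ∈ T' → ∃ y, T' = {u, v, y} ∧
      (z ∉ Inn G D T0 T → y = z' ∨ z' ∈ Inn G D T0 T') ∧
      (z' ∉ Inn G D T0 T → y = z ∨ z ∈ Inn G D T0 T') := fun T' h' l b c => by
    obtain ⟨y, e1, y1, y2⟩ := third h'.2.2 b c uv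
    have s := (sub tb sp t r h' h l).2
    have m : y ∈ Inn G D T0 T := by
      obtain ⟨x, x1, x2⟩ := l
      have n := (mem_inn.1 x2).2.1
      rw [e1] at x1
      simp only [Finset.mem_insert, Finset.mem_singleton] at x1
      rcases x1 with rfl | rfl | rfl
      exacts [(n hu.1.1).elim, (n hv.1.1).elim, x2]
    have d := (ap T' y h' e1 y1 y2).2
    exact ⟨y, e1, fun n => d.resolve_left fun g => n (g.elim (· ▸ m) fun g => s g),
      fun n => d.resolve_right fun g => n (g.elim (· ▸ m) fun g => s g)⟩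
  obtain ⟨y1, e1, k1⟩ := k T1 h1 l1 hu.1.2 hv.1.2
  obtain ⟨y2, e2, k2⟩ := k T2 h2 l2 hu.2 hv.2
  obtain ⟨p, p1, p2⟩ : ∃ p, (y1 = p ∨ p ∈ Inn G D T0 T1) ∧ (y2 = p ∨ p ∈ Inn G D T0 T2) :=
    (ap T w h e0 w1 w2).1.elim (fun n => ⟨z', k1.1 n, k2.1 n⟩) fun n => ⟨z, k1.2 n, k2.2 n⟩
  obtain rfl | p1 := p1 <;> obtain rfl | p2 := p2
  · exact Or.inl (e1.trans e2.symm)
  · exact Or.inr (Or.inl ⟨_, by simp [e1], p2⟩)
  · exact Or.inr (Or.inr ⟨_, by simp [e2], p1⟩)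
  · exact or_iff_not_imp_left.2 fun ne => (lam tb sp t r h1 h2 ne).resolve_left fun d =>
      Finset.disjoint_left.1 d p1 p2

theorem cin (h' : T3 G D T') (l : Lt (Inn G D T0) T' T) :
    Inn G (T ∪ Inn G D T0 T) T T' = Inn G D T0 T' := by
  have s := (sub tb sp t r h' h l).2
  ext x
  refine ⟨fun a => ?_, fun a => mem_inn.2 ⟨Finset.mem_union_right _ (s a), (mem_inn.1 a).2.1,
    fun ρ b _ d => (mem_inn.1 (s (inn_conn a (d.mono fun y hy => And.intro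
      ((Finset.mem_union.1 hy.1).elim (fun e => h.1 e) fun e => (mem_inn.1 e).1) hy.2)))).2.1 b⟩⟩
  obtain ⟨a1, a2, a3⟩ := mem_inn.1 a
  have b := (Finset.mem_union.1 a1).resolve_left fun b => a3 x b a2 (Conn.refl _ _)
  refine mem_inn.2 ⟨(mem_inn.1 b).1, a2, fun ρ c _ d => ?_⟩
  obtain ⟨p, q, p1, p2, q1, q2, e⟩ := conn_exit (X := (Inn G D T0 T : Set V)ᶜ) d (not_not.2 b)
    (root_not c)
  have m : q ∈ T := by_contra fun n => q2 (inn_adj (not_not.1 p2) e q1.1 n)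
  have p3 := p1.mono (U' := ((T ∪ Inn G D T0 T : Finset V) : Set V) \ T') fun y hy =>
    ⟨Finset.mem_union_right _ (not_not.1 hy.2), hy.1.2⟩
  exact a3 q m q1.2 (p3.trans (Conn.adj e (p3.mem ⟨a1, a2⟩) ⟨Finset.mem_union_left _ m, q1.2⟩))

end

omit [Fintype V] in
theorem cout (h : T3 G D T) : Inn G (D \ Inn G D T0 T) T0 T' = Inn G D T0 T' \ Inn G D T0 T := by
  ext x
  rw [Finset.mem_sdiff]
  refine ⟨fun a => ?_, fun ⟨a, b⟩ => mem_inn.2 ⟨Finset.mem_sdiff.2 ⟨(mem_inn.1 a).1, b⟩,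
    (mem_inn.1 a).2.1, fun ρ c d e => (mem_inn.1 a).2.2 ρ c d
      (e.mono fun y hy => And.intro (Finset.mem_sdiff.1 hy.1).1 hy.2)⟩⟩
  obtain ⟨a1, a2, a3⟩ := mem_inn.1 a
  obtain ⟨a4, a5⟩ := Finset.mem_sdiff.1 a1
  refine ⟨mem_inn.2 ⟨a4, a2, fun ρ c d e => a3 ρ c d ?_⟩, a5⟩
  refine (conn_ind (fun b => (b ∉ Inn G D T0 T → Conn G _ x b) ∧ (b ∈ Inn G D T0 T → ∃ c ∈ T,
    Conn G (((D \ Inn G D T0 T : Finset V) : Set V) \ T') x c)) e
    ⟨fun _ => Conn.refl _ _, fun b => (a5 b).elim⟩ fun p hp q hq _ pq ih => ?_).1 (root_not c)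
  by_cases m : p ∈ Inn G D T0 T
  · refine ⟨fun n => ?_, fun _ => ih.2 m⟩
    obtain ⟨c, c1, c2⟩ := ih.2 m
    exact c2.trans (t3_conn h c1 (by_contra fun k => n (inn_adj m pq hq.1 k)) (c2.mem ⟨a1, a2⟩)
      ⟨Finset.mem_sdiff.2 ⟨hq.1, n⟩, hq.2⟩)
  · exact ⟨fun n => (ih.1 m).trans (Conn.adj pq ⟨Finset.mem_sdiff.2 ⟨hp.1, m⟩, hp.2⟩
      ⟨Finset.mem_sdiff.2 ⟨hq.1, n⟩, hq.2⟩),
      fun n => ⟨p, by_contra fun k => m (inn_adj n pq.symm hp.1 k), ih.1 m⟩⟩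

end LamAux

theorem lam (tb : StmtTB) (sp : StmtSPLIT) : StmtLAM where
  sub _ _ _ _ _ _ _ _ _ t r h := LamAux.sub tb sp t r h
  lam _ _ _ _ _ _ _ _ _ t r h := LamAux.lam tb sp t r h
  edge _ _ _ _ _ _ _ _ _ _ t r h := LamAux.edge tb sp t r h
  cin _ _ _ _ _ _ _ _ _ t r h := LamAux.cin tb sp t r h
  cout _ _ _ _ _ _ _ _ _ _ _ h _ _ _ := LamAux.cout h

end Pool.Agent.MP_856573_co.H74
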